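import Pool.Agent.Lib.MP_de5eaa_nt.Near.N4
import Pool.Agent.Lib.MP_de5eaa_nt.Poi.F0
import Pool.Agent.Lib.MP_de5eaa_nt.Poi.H7

set_option autoImplicit false

namespace Pool.Agent.Lib.MP_de5eaa_nt.Uni

open Finset Filter Topology
open Pool.Agent.Lib.MP_de5eaa_nt.Near (hs wq e1)
open Pool.Agent.Lib.MP_de5eaa_nt.Poi (QQ UU YY)

theorem V1a_half : e1 (1 / 2) = -1 := by
  unfold Near.e1
  rw [show (2 * Real.pi * (((1 / 2 : ℝ)) : ℂ) * Complex.I : ℂ) = Real.pi * Complex.I by push_cast; ring]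
  exact Complex.exp_pi_mul_I

theorem V1a_sum {Q w : ℕ} (hQ : 0 < Q) (hw : Q.Coprime w) (F : ℕ → ℂ) :
    ∑ u ∈ UU Q, F (u * w % Q) = ∑ u ∈ UU Q, F u := by
  apply Complex.ext
  · rw [Complex.re_sum, Complex.re_sum]
    exact Poi.sum_unit hQ hw (fun u => (F u).re)
  · rw [Complex.im_sum, Complex.im_sum]
    exact Poi.sum_unit hQ hw (fun u => (F u).im)

theorem V1a_term {q : ℚ} (h4 : 4 ∣ q.den) {Q w u : ℕ} (hd : q.den ∣ Q)
    (hw : w ≡ 1 + q.den / 2 [MOD q.den]) (hu : Odd u) :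
    e1 (((u * w % Q : ℕ) : ℝ) * (q : ℝ)) = -e1 ((u : ℝ) * (q : ℝ)) := by
  have hodd : Odd q.num := by
    rw [← Int.not_even_iff_odd]
    intro hev
    have h2 : 2 ∣ q.num.natAbs := by
      rw [← Int.natAbs_even] at hev
      exact hev.two_dvd
    have h3 : 2 ∣ q.den := (by norm_num : 2 ∣ 4).trans h4
    have h5 := Nat.dvd_gcd h2 h3
    have h6 : q.num.natAbs.gcd q.den = 1 := q.reduced
    rw [h6] at h5
    omega
  have hq : (q.den : ℝ) * (q : ℝ) = (q.num : ℝ) := by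
    have h := Rat.den_mul_eq_num q
    exact_mod_cast h
  obtain ⟨c, hc⟩ := h4
  obtain ⟨k, hk⟩ := hd
  have hdiv : q.den / 2 = 2 * c := by omega
  obtain ⟨z, hz⟩ : ∃ z : ℤ, (w : ℤ) = 1 + 2 * (c : ℤ) + 4 * c * z := by
    rw [hdiv, hc] at hw
    obtain ⟨z, hz⟩ := (Nat.modEq_iff_dvd.1 hw.symm)
    exact ⟨z, by push_cast at hz ⊢; linarith⟩
  obtain ⟨s, hs⟩ : ∃ s : ℤ, (u : ℤ) * q.num = 2 * s + 1 := by
    have h1 : Odd (u : ℤ) := by exact_mod_cast hu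
    exact h1.mul hodd
  obtain ⟨t, ht⟩ : ∃ t, t = u * w / Q := ⟨_, rfl⟩
  have hmod : ((u * w % Q : ℕ) : ℝ) = (u : ℝ) * w - (Q : ℝ) * (t : ℝ) := by
    have h1 := Nat.div_add_mod (u * w) Q
    rw [← ht] at h1
    have h2 : ((Q * t + u * w % Q : ℕ) : ℝ) = ((u * w : ℕ) : ℝ) := by rw [h1]
    rw [Nat.cast_add, Nat.cast_mul, Nat.cast_mul] at h2
    linarith
  have hwR : (w : ℝ) = 1 + 2 * (c : ℝ) + 4 * c * (z : ℝ) := by exact_mod_cast hz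
  have hsR : (u : ℝ) * (q.num : ℝ) = 2 * (s : ℝ) + 1 := by exact_mod_cast hs
  have hcq : 4 * (c : ℝ) * (q : ℝ) = (q.num : ℝ) := by
    rw [← hq, hc]
    push_cast
    ring
  have hQR : (Q : ℝ) = 4 * (c : ℝ) * (k : ℝ) := by
    rw [hk, hc]
    push_cast
    ring
  have key : ((u * w % Q : ℕ) : ℝ) * (q : ℝ) =
      (u : ℝ) * (q : ℝ) + (1 / 2 + ((s + u * z * q.num - k * q.num * t : ℤ) : ℝ)) := by
    rw [hmod, hwR, hQR]
    push_cast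
    linear_combination ((u : ℝ) / 2 + (u : ℝ) * z - (k : ℝ) * t) * hcq + (1 / 2) * hsR
  rw [key, Near.e1_add, Near.e1_add, Near.e1_int, V1a_half]
  ring

/-- ROW V1a. Let `b = q.den`, `4 ∣ b`, `a = q.num` odd. `1 + b/2` is coprime to `b` (odd, and every odd prime divisor of `b`
divides `b/2`). `Poi.lift` (with `m := b`, `e0 := 1`, `r := 1 + b/2`) gives `w` coprime to `Q` with `w ≡ 1 + b/2 [MOD b]`. By
`Poi.sum_unit` (for the real and imaginary parts, or prove the complex version in the same way)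
`∑_u e1 (u q) = ∑_u e1 ((u w % Q) q)`, where `(u w % Q) q - u (1 + b/2) q` is an integer (`b ∣ Q`, `b ∣ w - 1 - b/2`), so each
term is `e1 (u q) e1 (u q b/2) = e1 (u q) e1 (u a/2) = - e1 (u q)` (`u` is odd because it is coprime to `Q` and `2 ∣ Q`;
`a` odd). So the sum is equal to its negative. -/
theorem char_zero {q : ℚ} (h4 : 4 ∣ q.den) {Q : ℕ} (hQ : 0 < Q) (hd : q.den ∣ Q) :
    ∑ u ∈ UU Q, e1 ((u : ℝ) * (q : ℝ)) = 0 := by
  have h4' := h4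
  obtain ⟨c, hc⟩ := h4
  have hb : 0 < q.den := q.den_pos
  have hdiv : q.den / 2 = 2 * c := by omega
  have hcop : q.den.Coprime (1 + q.den / 2) := by
    rw [hdiv, hc]
    have h1 : Nat.Coprime (2 * c) (1 + 2 * c) := by
      rw [Nat.coprime_add_self_right]
      exact Nat.coprime_one_right _
    have h2 : Nat.Coprime 2 (1 + 2 * c) := by
      rw [Nat.coprime_two_left, Nat.odd_iff]
      omega
    have h3 := Nat.Coprime.mul_left h2 h1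
    rwa [show 2 * (2 * c) = 4 * c by ring] at h3
  obtain ⟨w, hw1, hw2, -⟩ := Poi.lift hQ hd (one_dvd Q) (Nat.coprime_one_right _) hcop
  have h2Q : 2 ∣ Q := ((by norm_num : 2 ∣ 4).trans h4').trans hd
  have hneg : ∑ u ∈ UU Q, e1 ((u : ℝ) * (q : ℝ)) = -∑ u ∈ UU Q, e1 ((u : ℝ) * (q : ℝ)) := by
    calc ∑ u ∈ UU Q, e1 ((u : ℝ) * (q : ℝ)) = ∑ u ∈ UU Q, e1 (((u * w % Q : ℕ) : ℝ) * (q : ℝ)) :=
          (V1a_sum hQ hw1 (fun u => e1 ((u : ℝ) * (q : ℝ)))).symm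
      _ = ∑ u ∈ UU Q, -e1 ((u : ℝ) * (q : ℝ)) := by
          refine Finset.sum_congr rfl fun u hu => V1a_term h4' hd hw2 ?_
          unfold Poi.UU at hu
          rw [mem_filter, mem_range] at hu
          have h1 : Nat.Coprime 2 u := Nat.Coprime.coprime_dvd_left h2Q hu.2
          rwa [Nat.coprime_two_left] at h1
      _ = _ := Finset.sum_neg_distrib _
  have h2 : (2 : ℂ) * ∑ u ∈ UU Q, e1 ((u : ℝ) * (q : ℝ)) = 0 := by
    linear_combination hneg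
  exact (mul_eq_zero.1 h2).resolve_left (by norm_num)

theorem V1b_conj_sum (Q : ℕ) (f : ℕ → ℝ) :
    (starRingEnd ℂ) (∑ u ∈ UU Q, e1 (f u)) = ∑ u ∈ UU Q, e1 (-(f u)) := by
  rw [map_sum]
  exact Finset.sum_congr rfl fun u _ => Pool.Agent.Lib.MP_de5eaa_nt.Near.e1_conj _

theorem V1b_den (j : ℤ) (q : ℚ) : ((j : ℚ) * q).den ∣ q.den := by
  have h := Rat.mul_den_dvd (j : ℚ) q
  simpa using h

theorem V1b_sub (u n m : ℕ) (h1 : 1 ≤ n) (h : n ≤ m) (j : ℤ) :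
    (j : ℝ) * (YY u n - YY u m) = (u : ℝ) * (((j : ℚ) * hs n m : ℚ) : ℝ) := by
  have h2 : hs 1 m = hs 1 n + hs n m := by
    unfold Pool.Agent.Lib.MP_de5eaa_nt.Near.hs
    exact (Finset.sum_Ico_consecutive _ h1 h).symm
  unfold Pool.Agent.Lib.MP_de5eaa_nt.Poi.YY
  rw [h2]
  push_cast
  ring

theorem V1b_far {j : ℤ} {t : ℕ} (hj : ¬ (2 : ℤ) ^ (t + 1) ∣ j) {L n m : ℕ} (hn : 1 ≤ n) (hm : m ≤ L)
    (h : n + 2 ^ (t + 2) ≤ m) : ∑ u ∈ UU (QQ L), e1 ((j : ℝ) * (YY u n - YY u m)) = 0 := by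
  have h1 : ∀ u ∈ UU (QQ L), e1 ((j : ℝ) * (YY u n - YY u m)) =
      e1 ((u : ℝ) * (((j : ℚ) * hs n m : ℚ) : ℝ)) := fun u _ => by
    rw [V1b_sub u n m hn ((Nat.le_add_right _ _).trans h) j]
  rw [Finset.sum_congr rfl h1]
  refine char_zero (Pool.Agent.Lib.MP_de5eaa_nt.Near.four_dvd_den hn h hj)
    (Pool.Agent.Lib.MP_de5eaa_nt.Poi.QQ_pos L) ?_
  exact (V1b_den j (hs n m)).trans (Pool.Agent.Lib.MP_de5eaa_nt.Poi.den_dvd_QQ hn (by omega))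

theorem V1b_far' {j : ℤ} {t : ℕ} (hj : ¬ (2 : ℤ) ^ (t + 1) ∣ j) {L n m : ℕ} (hn : n ∈ Icc 1 L) (hm : m ∈ Icc 1 L)
    (h : n + 2 ^ (t + 2) ≤ m ∨ m + 2 ^ (t + 2) ≤ n) :
    ∑ u ∈ UU (QQ L), e1 ((j : ℝ) * (YY u n - YY u m)) = 0 := by
  rw [mem_Icc] at hn hm
  rcases h with h | h
  · exact V1b_far hj hn.1 hm.2 h
  · have h1 := V1b_far hj hm.1 hn.2 h
    have h2 := V1b_conj_sum (QQ L) (fun u => (j : ℝ) * (YY u m - YY u n))
    rw [h1, map_zero] at h2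
    rw [h2]
    refine Finset.sum_congr rfl fun u _ => ?_
    congr 1
    ring

theorem V1b_norm (j : ℤ) (L n m : ℕ) : ‖∑ u ∈ UU (QQ L), e1 ((j : ℝ) * (YY u n - YY u m))‖ ≤
    ((QQ L).totient : ℝ) := by
  refine (norm_sum_le _ _).trans ?_
  rw [Finset.sum_congr rfl (fun u _ => Pool.Agent.Lib.MP_de5eaa_nt.Near.norm_e1 _)]
  rw [Finset.sum_const, nsmul_eq_mul, mul_one]
  exact le_rfl

theorem V1b_expand (j : ℤ) (L : ℕ) (F : Finset ℕ) (c : ℕ → ℂ) :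
    ((∑ u ∈ UU (QQ L), ‖∑ n ∈ F, c n * e1 ((j : ℝ) * YY u n)‖ ^ 2 : ℝ) : ℂ) =
      ∑ n ∈ F, ∑ m ∈ F, (c n * (starRingEnd ℂ) (c m)) *
        ∑ u ∈ UU (QQ L), e1 ((j : ℝ) * (YY u n - YY u m)) := by
  push_cast
  have h1 : ∀ u ∈ UU (QQ L), ((‖∑ n ∈ F, c n * e1 ((j : ℝ) * YY u n)‖ : ℝ) : ℂ) ^ 2 =
      ∑ n ∈ F, ∑ m ∈ F, (c n * (starRingEnd ℂ) (c m)) * e1 ((j : ℝ) * (YY u n - YY u m)) := by
    intro u _
    rw [← Complex.mul_conj', map_sum, Finset.sum_mul_sum]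
    refine Finset.sum_congr rfl fun n _ => Finset.sum_congr rfl fun m _ => ?_
    rw [map_mul, Pool.Agent.Lib.MP_de5eaa_nt.Near.e1_conj]
    have e : (j : ℝ) * (YY u n - YY u m) = (j : ℝ) * YY u n + -((j : ℝ) * YY u m) := by ring
    rw [e, Pool.Agent.Lib.MP_de5eaa_nt.Near.e1_add]
    ring
  rw [Finset.sum_congr rfl h1, Finset.sum_comm]
  refine Finset.sum_congr rfl fun n _ => ?_
  rw [Finset.sum_comm]
  refine Finset.sum_congr rfl fun m _ => ?_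
  rw [Finset.mul_sum]

theorem V1b_card (F : Finset ℕ) (d n : ℕ) (hd : 1 ≤ d) :
    (F.filter fun m => ¬ (n + d ≤ m ∨ m + d ≤ n)).card ≤ 2 * d := by
  have h1 : (F.filter fun m => ¬ (n + d ≤ m ∨ m + d ≤ n)) ⊆ Ico (n + 1 - d) (n + d) := by
    intro m hm
    rw [mem_filter] at hm
    rw [mem_Ico]
    omega
  refine (Finset.card_le_card h1).trans ?_
  rw [Nat.card_Ico]
  omega

theorem V1b_schur (F : Finset ℕ) (d : ℕ) (hd : 1 ≤ d) (a : ℕ → ℝ) :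
    ∑ n ∈ F, ∑ m ∈ F, (if ¬ (n + d ≤ m ∨ m + d ≤ n) then a n * a m else 0) ≤ (2 * d : ℕ) * ∑ n ∈ F, a n ^ 2 := by
  have h1 : ∑ n ∈ F, ∑ m ∈ F, (if ¬ (n + d ≤ m ∨ m + d ≤ n) then a n * a m else 0) ≤
      ∑ n ∈ F, ∑ m ∈ F, ((if ¬ (n + d ≤ m ∨ m + d ≤ n) then a n ^ 2 / 2 else 0) +
        (if ¬ (m + d ≤ n ∨ n + d ≤ m) then a m ^ 2 / 2 else 0)) := by
    refine Finset.sum_le_sum fun n _ => Finset.sum_le_sum fun m _ => ?_
    by_cases h : n + d ≤ m ∨ m + d ≤ n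
    · rw [if_neg (not_not.2 h), if_neg (not_not.2 h), if_neg (not_not.2 h.symm)]
      norm_num
    · have h' : ¬ (m + d ≤ n ∨ n + d ≤ m) := fun h2 => h h2.symm
      rw [if_pos h, if_pos h, if_pos h']
      nlinarith [sq_nonneg (a n - a m)]
  refine h1.trans ?_
  have h2 : ∀ n ∈ F, ∑ m ∈ F, (if ¬ (n + d ≤ m ∨ m + d ≤ n) then a n ^ 2 / 2 else 0) ≤
      (2 * d : ℕ) * (a n ^ 2 / 2) := by
    intro n _
    rw [← Finset.sum_filter, Finset.sum_const, nsmul_eq_mul]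
    exact mul_le_mul_of_nonneg_right (by exact_mod_cast V1b_card F d n hd) (by positivity)
  have h3 : ∑ n ∈ F, ∑ m ∈ F, (if ¬ (m + d ≤ n ∨ n + d ≤ m) then a m ^ 2 / 2 else 0) =
      ∑ n ∈ F, ∑ m ∈ F, (if ¬ (n + d ≤ m ∨ m + d ≤ n) then a n ^ 2 / 2 else 0) := by
    rw [Finset.sum_comm]
  calc ∑ n ∈ F, ∑ m ∈ F, ((if ¬ (n + d ≤ m ∨ m + d ≤ n) then a n ^ 2 / 2 else 0) +
        (if ¬ (m + d ≤ n ∨ n + d ≤ m) then a m ^ 2 / 2 else 0))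
      = ∑ n ∈ F, ∑ m ∈ F, (if ¬ (n + d ≤ m ∨ m + d ≤ n) then a n ^ 2 / 2 else 0) +
        ∑ n ∈ F, ∑ m ∈ F, (if ¬ (m + d ≤ n ∨ n + d ≤ m) then a m ^ 2 / 2 else 0) := by
        rw [← Finset.sum_add_distrib]
        exact Finset.sum_congr rfl fun n _ => Finset.sum_add_distrib
    _ = 2 * ∑ n ∈ F, ∑ m ∈ F, (if ¬ (n + d ≤ m ∨ m + d ≤ n) then a n ^ 2 / 2 else 0) := by
        rw [h3]; ring
    _ ≤ 2 * ∑ n ∈ F, (2 * d : ℕ) * (a n ^ 2 / 2) :=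
        mul_le_mul_of_nonneg_left (Finset.sum_le_sum h2) (by norm_num)
    _ = (2 * d : ℕ) * ∑ n ∈ F, a n ^ 2 := by
        rw [← Finset.mul_sum, ← Finset.sum_div]; ring

/-- ROW V1b. Expand the square: `‖S‖^2 = ∑_{n,m ∈ F} c n conj(c m) e1 (j (YY u n - YY u m))`, sum over `u`. If `n + 2^(t+2) ≤ m` then
`j (YY u n - YY u m) = u (j hs n m)` (`hs 1 m = hs 1 n + hs n m`), `4 ∣ (j hs n m).den` (`Near.four_dvd_den`) and this denominator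
divides that of `hs n m` (`Rat.mul_den_dvd` or: `N * q` integer implies `N * (j q)` integer), which divides `QQ L` (`Poi.den_dvd_QQ`), so the
sum over `u` is zero (`char_zero`); the same with `n`, `m` exchanged (complex conjugates, or `-j`). For the other pairs the sum over
`u` has absolute value at most `φ(QQ L)` (`(UU Q).card = φ(Q)` by `rfl`), and `|c n| |c m| ≤ (|c n|^2 + |c m|^2)/2`; for
every `n` there are at most `2 * 2^(t+2) = 8 * 2^t` such `m`. -/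
theorem gram_u {j : ℤ} {t : ℕ} (hj : ¬ (2 : ℤ) ^ (t + 1) ∣ j) {L : ℕ} {F : Finset ℕ} (hF : F ⊆ Icc 1 L) (c : ℕ → ℂ) :
    ∑ u ∈ UU (QQ L), ‖∑ n ∈ F, c n * e1 ((j : ℝ) * YY u n)‖ ^ 2 ≤
      ((QQ L).totient : ℝ) * (8 * 2 ^ t) * ∑ n ∈ F, ‖c n‖ ^ 2 := by
  have hd : 1 ≤ 2 ^ (t + 2) := Nat.one_le_two_pow
  have hmain : ‖((∑ u ∈ UU (QQ L), ‖∑ n ∈ F, c n * e1 ((j : ℝ) * YY u n)‖ ^ 2 : ℝ) : ℂ)‖ ≤
      ((QQ L).totient : ℝ) * ((2 * 2 ^ (t + 2) : ℕ) * ∑ n ∈ F, ‖c n‖ ^ 2) := by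
    rw [V1b_expand]
    refine (norm_sum_le _ _).trans ?_
    refine le_trans ?_ (mul_le_mul_of_nonneg_left (V1b_schur F (2 ^ (t + 2)) hd (fun n => ‖c n‖))
      (Nat.cast_nonneg _))
    rw [Finset.mul_sum]
    refine Finset.sum_le_sum fun n hn => ?_
    refine (norm_sum_le _ _).trans ?_
    rw [Finset.mul_sum]
    refine Finset.sum_le_sum fun m hm => ?_
    by_cases h : n + 2 ^ (t + 2) ≤ m ∨ m + 2 ^ (t + 2) ≤ n
    · rw [V1b_far' hj (hF hn) (hF hm) h, mul_zero, norm_zero, if_neg (not_not.2 h), mul_zero]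
    · rw [if_pos h, norm_mul, norm_mul, RCLike.norm_conj, mul_comm]
      exact mul_le_mul_of_nonneg_right (V1b_norm j L n m) (by positivity)
  rw [Complex.norm_real, Real.norm_eq_abs] at hmain
  refine (le_abs_self _).trans (hmain.trans (le_of_eq ?_))
  push_cast
  ring

end Pool.Agent.Lib.MP_de5eaa_nt.Uni
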