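import Pool.Agent.Lib.MP_de5eaa_nt.Uni.V1
import Pool.Agent.Lib.MP_de5eaa_nt.Poi.U2
import Pool.Agent.Lib.MP_de5eaa_nt.Near.O2

set_option autoImplicit false

namespace Pool.Agent.Lib.MP_de5eaa_nt.Uni

open Finset Filter Topology
open Pool.Agent.Lib.MP_de5eaa_nt.Near (hs wq e1 yy pr ppi)
open Pool.Agent.Lib.MP_de5eaa_nt.Poi (QQ UU YY)

theorem V2a_hs_nonneg (n : ℕ) : 0 ≤ ((hs 1 n : ℚ) : ℝ) := by
  unfold hs
  push_cast
  exact Finset.sum_nonneg fun k _ => by positivity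

theorem V2a_hs_le {n L : ℕ} (hnL : n ≤ L) : ((hs 1 n : ℚ) : ℝ) ≤ L := by
  unfold hs
  push_cast
  have h1 : ∑ k ∈ Ico 1 n, (1 : ℝ) / (k : ℝ) ≤ ∑ k ∈ Ico 1 n, (1 : ℝ) := by
    refine Finset.sum_le_sum fun k hk => ?_
    have hk1 : 1 ≤ k := (Finset.mem_Ico.1 hk).1
    have hk2 : (1 : ℝ) ≤ k := by exact_mod_cast hk1
    rw [div_le_one (by linarith)]
    exact hk2
  refine h1.trans ?_
  rw [Finset.sum_const, Nat.card_Ico, nsmul_eq_mul, mul_one]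
  have h2 : n - 1 ≤ L := by omega
  exact_mod_cast h2

theorem V2a_split {j : ℤ} {p L u n : ℕ} (hp : p.Prime) (hL : L < p) (hu : u * p ≡ 1 [MOD QQ L]) (hn : 1 ≤ n)
    (hnL : n ≤ L) :
    e1 ((j : ℝ) * yy p n) = e1 ((j : ℝ) * yy p 1) *
      (e1 ((j : ℝ) * YY u n) * e1 ((j : ℝ) * (((hs 1 n : ℚ) : ℝ) / p))) := by
  obtain ⟨a, ha⟩ := Pool.Agent.Lib.MP_de5eaa_nt.Poi.wq_point hp hL hu hn hnL
  have h1 : (j : ℝ) * yy p n = ((j : ℝ) * yy p 1 + ((j : ℝ) * YY u n + (j : ℝ) * (((hs 1 n : ℚ) : ℝ) / p))) +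
      ((j * a : ℤ) : ℝ) := by
    unfold Pool.Agent.Lib.MP_de5eaa_nt.Near.yy
    rw [ha]
    push_cast
    ring
  rw [h1, Pool.Agent.Lib.MP_de5eaa_nt.Near.e1_add, Pool.Agent.Lib.MP_de5eaa_nt.Near.e1_int, mul_one,
    Pool.Agent.Lib.MP_de5eaa_nt.Near.e1_add, Pool.Agent.Lib.MP_de5eaa_nt.Near.e1_add]

/-- ROW V2a. `Poi.wq_point`: `yy p n = yy p 1 + hs 1 n / p + YY u n + a` with an integer `a`. So
`e1 (j yy p n) = e1 (j yy p 1) e1 (j YY u n) e1 (j hs 1 n / p)` (`e1_add`, `e1_int` in `Near`), `‖e1 (j yy p 1)‖ = 1`, and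
`‖e1 s - 1‖ ≤ 2 π |s|` (`Near.norm_e1_sub_one`) with `0 ≤ hs 1 n ≤ L` (`n ≤ L`, at most `n - 1` terms, each `≤ 1`). So
`‖∑ c n e1 (j yy p n)‖ ≤ ‖∑ c n e1 (j YY u n)‖ + E`, `E = 2 π |j| (L/p) ∑ ‖c n‖`, `(∑ ‖c n‖)^2 ≤ L ∑ ‖c n‖^2` (Cauchy-Schwarz, `F.card ≤ L`);
`(a + b)^2 ≤ 2 a^2 + 2 b^2`, `8 π^2 ≤ 80`. -/
theorem point_sq {j : ℤ} {p L u : ℕ} (hp : p.Prime) (hL : L < p) (hu : u * p ≡ 1 [MOD QQ L]) {F : Finset ℕ}
    (hF : F ⊆ Icc 1 L) (c : ℕ → ℂ) :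
    ‖∑ n ∈ F, c n * e1 ((j : ℝ) * yy p n)‖ ^ 2 ≤ 2 * ‖∑ n ∈ F, c n * e1 ((j : ℝ) * YY u n)‖ ^ 2 +
      80 * (j : ℝ) ^ 2 * (L : ℝ) ^ 3 / (p : ℝ) ^ 2 * ∑ n ∈ F, ‖c n‖ ^ 2 := by
  have hp0 : (0 : ℝ) < p := by exact_mod_cast hp.pos
  have hmem : ∀ n ∈ F, 1 ≤ n ∧ n ≤ L := fun n hn => Finset.mem_Icc.1 (hF hn)
  have hS : ∑ n ∈ F, c n * e1 ((j : ℝ) * yy p n) = e1 ((j : ℝ) * yy p 1) *
      (∑ n ∈ F, c n * e1 ((j : ℝ) * YY u n) +
        ∑ n ∈ F, c n * e1 ((j : ℝ) * YY u n) * (e1 ((j : ℝ) * (((hs 1 n : ℚ) : ℝ) / p)) - 1)) := by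
    rw [← Finset.sum_add_distrib, Finset.mul_sum]
    refine Finset.sum_congr rfl fun n hn => ?_
    rw [V2a_split hp hL hu (hmem n hn).1 (hmem n hn).2]
    ring
  set A : ℂ := ∑ n ∈ F, c n * e1 ((j : ℝ) * YY u n) with hA
  set B : ℂ := ∑ n ∈ F, c n * e1 ((j : ℝ) * YY u n) * (e1 ((j : ℝ) * (((hs 1 n : ℚ) : ℝ) / p)) - 1) with hB
  have hnS : ‖∑ n ∈ F, c n * e1 ((j : ℝ) * yy p n)‖ ≤ ‖A‖ + ‖B‖ := by
    rw [hS, norm_mul, Pool.Agent.Lib.MP_de5eaa_nt.Near.norm_e1, one_mul]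
    exact norm_add_le _ _
  set T1 : ℝ := ∑ n ∈ F, ‖c n‖ with hT1
  set T2 : ℝ := ∑ n ∈ F, ‖c n‖ ^ 2 with hT2
  have hT1nn : 0 ≤ T1 := Finset.sum_nonneg fun n _ => norm_nonneg _
  have hT2nn : 0 ≤ T2 := Finset.sum_nonneg fun n _ => by positivity
  have hBle : ‖B‖ ≤ (2 * Real.pi * |(j : ℝ)| * ((L : ℝ) / p)) * T1 := by
    rw [hB, hT1, Finset.mul_sum]
    refine (norm_sum_le _ _).trans (Finset.sum_le_sum fun n hn => ?_)
    rw [norm_mul, norm_mul, Pool.Agent.Lib.MP_de5eaa_nt.Near.norm_e1, mul_one, mul_comm]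
    refine mul_le_mul_of_nonneg_right ?_ (norm_nonneg _)
    refine (Pool.Agent.Lib.MP_de5eaa_nt.Near.norm_e1_sub_one _).trans ?_
    have h1 : |(j : ℝ) * (((hs 1 n : ℚ) : ℝ) / p)| ≤ |(j : ℝ)| * ((L : ℝ) / p) := by
      rw [abs_mul]
      refine mul_le_mul_of_nonneg_left ?_ (abs_nonneg _)
      rw [abs_of_nonneg (div_nonneg (V2a_hs_nonneg n) hp0.le)]
      exact div_le_div_of_nonneg_right (V2a_hs_le (hmem n hn).2) hp0.le
    calc 2 * Real.pi * |(j : ℝ) * (((hs 1 n : ℚ) : ℝ) / p)| ≤ 2 * Real.pi * (|(j : ℝ)| * ((L : ℝ) / p)) :=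
          mul_le_mul_of_nonneg_left h1 (by positivity)
      _ = 2 * Real.pi * |(j : ℝ)| * ((L : ℝ) / p) := by ring
  have hcard : (F.card : ℝ) ≤ L := by
    have h1 := Finset.card_le_card hF
    rw [Nat.card_Icc] at h1
    have h2 : F.card ≤ L := by omega
    exact_mod_cast h2
  have hT12 : T1 ^ 2 ≤ (L : ℝ) * T2 := by
    have h1 : T1 ^ 2 ≤ (F.card : ℝ) * T2 := sq_sum_le_card_mul_sum_sq
    exact h1.trans (mul_le_mul_of_nonneg_right hcard hT2nn)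
  have hE : ‖B‖ ^ 2 ≤ 40 * (j : ℝ) ^ 2 * (L : ℝ) ^ 3 / (p : ℝ) ^ 2 * T2 := by
    have h1 : ‖B‖ ^ 2 ≤ ((2 * Real.pi * |(j : ℝ)| * ((L : ℝ) / p)) * T1) ^ 2 :=
      pow_le_pow_left₀ (norm_nonneg _) hBle 2
    have h2 : ((2 * Real.pi * |(j : ℝ)| * ((L : ℝ) / p)) * T1) ^ 2 =
        (4 * Real.pi ^ 2) * (((j : ℝ) ^ 2 * (L : ℝ) ^ 2 / (p : ℝ) ^ 2) * T1 ^ 2) := by
      rw [show ((2 * Real.pi * |(j : ℝ)| * ((L : ℝ) / p)) * T1) ^ 2 =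
        4 * Real.pi ^ 2 * (|(j : ℝ)| ^ 2 * ((L : ℝ) ^ 2 / (p : ℝ) ^ 2) * T1 ^ 2) by
          rw [mul_pow, mul_pow, mul_pow, mul_pow, div_pow]; ring, sq_abs]
      ring
    have h3 : 4 * Real.pi ^ 2 ≤ 40 := by
      have := Real.pi_lt_d2
      have := Real.pi_pos
      nlinarith
    have h4 : ((j : ℝ) ^ 2 * (L : ℝ) ^ 2 / (p : ℝ) ^ 2) * T1 ^ 2 ≤
        ((j : ℝ) ^ 2 * (L : ℝ) ^ 2 / (p : ℝ) ^ 2) * ((L : ℝ) * T2) :=
      mul_le_mul_of_nonneg_left hT12 (by positivity)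
    calc ‖B‖ ^ 2 ≤ (4 * Real.pi ^ 2) * (((j : ℝ) ^ 2 * (L : ℝ) ^ 2 / (p : ℝ) ^ 2) * T1 ^ 2) := h1.trans h2.le
      _ ≤ 40 * (((j : ℝ) ^ 2 * (L : ℝ) ^ 2 / (p : ℝ) ^ 2) * ((L : ℝ) * T2)) :=
          mul_le_mul h3 h4 (by positivity) (by norm_num)
      _ = 40 * (j : ℝ) ^ 2 * (L : ℝ) ^ 3 / (p : ℝ) ^ 2 * T2 := by ring
  have hfin : ‖∑ n ∈ F, c n * e1 ((j : ℝ) * yy p n)‖ ^ 2 ≤ (‖A‖ + ‖B‖) ^ 2 :=
    pow_le_pow_left₀ (norm_nonneg _) hnS 2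
  have h5 : (‖A‖ + ‖B‖) ^ 2 ≤ 2 * ‖A‖ ^ 2 + 2 * ‖B‖ ^ 2 := by nlinarith [sq_nonneg (‖A‖ - ‖B‖)]
  calc ‖∑ n ∈ F, c n * e1 ((j : ℝ) * yy p n)‖ ^ 2 ≤ 2 * ‖A‖ ^ 2 + 2 * ‖B‖ ^ 2 := hfin.trans h5
    _ ≤ 2 * ‖A‖ ^ 2 + 2 * (40 * (j : ℝ) ^ 2 * (L : ℝ) ^ 3 / (p : ℝ) ^ 2 * T2) := by linarith
    _ = 2 * ‖A‖ ^ 2 + 80 * (j : ℝ) ^ 2 * (L : ℝ) ^ 3 / (p : ℝ) ^ 2 * T2 := by ring

theorem V2b_cs (y : ℕ → ℝ) (F : Finset ℕ) (c : ℕ → ℂ) :
    ‖∑ n ∈ F, c n * e1 (y n)‖ ^ 2 ≤ (F.card : ℝ) * ∑ n ∈ F, ‖c n‖ ^ 2 := by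
  have h1 : ‖∑ n ∈ F, c n * e1 (y n)‖ ≤ ∑ n ∈ F, ‖c n‖ := by
    refine (norm_sum_le _ _).trans (le_of_eq (Finset.sum_congr rfl fun n _ => ?_))
    rw [norm_mul, Near.norm_e1, mul_one]
  exact (pow_le_pow_left₀ (norm_nonneg _) h1 2).trans sq_sum_le_card_mul_sum_sq

theorem V2b_card {L : ℕ} {F : Finset ℕ} (hF : F ⊆ Icc 1 L) : (F.card : ℝ) ≤ L := by
  have := Finset.card_le_card hF
  rw [Nat.card_Icc] at this
  exact_mod_cast this.trans (by omega)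

/-- the size conditions for large `x` -/
theorem V2b_large : ∀ᶠ x : ℕ in atTop, Real.log x ≤ 1 / 5 * (x : ℝ) ^ (1 / 4 : ℝ) ∧
    (1 / 2 : ℝ) < (ppi x : ℝ) * Real.log x / (x : ℝ) ∧ 2 ≤ x := by
  have h1 : ∀ᶠ x : ℕ in atTop, (1 / 2 : ℝ) < (ppi x : ℝ) * Real.log x / (x : ℝ) :=
    Near.ppi_tendsto.eventually (lt_mem_nhds (by norm_num))
  have h2 : ∀ᶠ x : ℕ in atTop, ‖Real.log (x : ℝ)‖ ≤ 1 / 5 * ‖(x : ℝ) ^ (1 / 4 : ℝ)‖ :=
    (tendsto_natCast_atTop_atTop (R := ℝ)).eventually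
      ((isLittleO_log_rpow_atTop (r := 1 / 4) (by positivity)).bound (by norm_num))
  filter_upwards [h1, h2, eventually_ge_atTop 2] with x h3 h4 h5
  have hx2 : (2 : ℝ) ≤ x := by exact_mod_cast h5
  have hlog : 0 < Real.log x := Real.log_pos (by linarith)
  rw [Real.norm_eq_abs, abs_of_pos hlog, Real.norm_eq_abs,
    abs_of_nonneg (Real.rpow_nonneg (by linarith) _)] at h4
  exact ⟨h4, h3, h5⟩

/-- ROW V2b. We may replace `L` by `L' = ⌊(1 - δ) log x⌋₊ ≥ L`. For `x ≥ x2` (large) let `T = ∑ ‖c n‖^2`.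
Primes `p ≤ √x`: each term is `≤ L' T ≤ T log x` (Cauchy-Schwarz, `‖e1‖ = 1`), in total `≤ √x log x T ≤ ppi x T`
(`Poi.sqrt_le_ppi`-like: `√x log x = o(ppi x)`).
Primes `p > √x`: `L' < p`, `p` coprime to `QQ L'`; with `u = p^{-1}` modulo `QQ L'` (`Poi.P4_inv`) `point_sq` gives
`≤ 2 ‖∑ c n e1 (j YY u n)‖^2 + T` because `80 j^2 L'^3/p^2 ≤ 80 x^{1/4} (log x)^3/x ≤ 1`. Sum over `p`: by `Poi.bt_mean` (with `δ/2`;
`QQ L' ≤ x^{1-δ/2}` by `Poi.log_QQ (δ/2)`, see the proof of `Poi.main_u`) with `F u = ‖∑ c n e1 (j YY u n)‖^2` and `gram_u`: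
`≤ 2 C1 ppi x/φ(Q) * φ(Q) 8 * 2^t T + ppi x T`. Total: `(16 C1 + 2) 2^t ppi x T`.
For `x < x2`: each term is `≤ L T ≤ log x2 T`, so `C ≥ log x2 + 1` is enough (`pr x` has `ppi x` elements, `1 ≤ 2^t`).
(`x = 0` or `1`: `pr x` is empty.) -/
theorem ls_primes {δ : ℝ} (hδ : 0 < δ) (hδ1 : δ < 1) : ∃ C : ℝ, 0 < C ∧ ∀ x L : ℕ, (L : ℝ) ≤ (1 - δ) * Real.log x →
    ∀ (j : ℤ) (t : ℕ), ¬ (2 : ℤ) ^ (t + 1) ∣ j → |(j : ℝ)| ≤ (x : ℝ) ^ (1 / 8 : ℝ) → ∀ F : Finset ℕ, F ⊆ Icc 1 L →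
      ∀ c : ℕ → ℂ, ∑ p ∈ pr x, ‖∑ n ∈ F, c n * e1 ((j : ℝ) * yy p n)‖ ^ 2 ≤
        C * 2 ^ t * ppi x * ∑ n ∈ F, ‖c n‖ ^ 2 := by
  obtain ⟨C1, hC1, x1, hbt⟩ := Poi.bt_mean (half_pos hδ)
  obtain ⟨L1, hL1⟩ := eventually_atTop.1 (Poi.log_QQ (half_pos hδ))
  have hlogev : ∀ᶠ x : ℕ in atTop, (L1 : ℝ) / (1 - δ) ≤ Real.log x :=
    (Real.tendsto_log_atTop.comp tendsto_natCast_atTop_atTop).eventually_ge_atTop _
  obtain ⟨x2, hx2⟩ := eventually_atTop.1 ((V2b_large.and hlogev).and (eventually_ge_atTop x1))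
  refine ⟨16 * C1 + 2 + x2, by positivity, fun x L hLx j t hj hjx F hF c => ?_⟩
  set T := ∑ n ∈ F, ‖c n‖ ^ 2 with hT
  have hT0 : 0 ≤ T := Finset.sum_nonneg fun n _ => by positivity
  have h2t : (1 : ℝ) ≤ 2 ^ t := one_le_pow₀ (by norm_num)
  have hppi : (0 : ℝ) ≤ ppi x := Nat.cast_nonneg _
  by_cases hxx : x2 ≤ x
  swap
  · push Not at hxx
    have hLx2 : (L : ℝ) ≤ x2 := by
      rcases Nat.eq_zero_or_pos x with h0 | h0
      · rw [h0] at hLx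
        simp at hLx
        rw [hLx]
        simp
      · have h1 : Real.log x ≤ (x : ℝ) := (Real.log_le_sub_one_of_pos (by exact_mod_cast h0)).trans (by linarith)
        have h2 : 0 ≤ Real.log (x : ℝ) := Real.log_natCast_nonneg x
        have h3 : (L : ℝ) ≤ x := by nlinarith
        have h4 : (x : ℝ) ≤ x2 := by exact_mod_cast hxx.le
        linarith
    have hterm : ∀ p ∈ pr x, ‖∑ n ∈ F, c n * e1 ((j : ℝ) * yy p n)‖ ^ 2 ≤ x2 * T := fun p _ =>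
      (V2b_cs (fun n => (j : ℝ) * yy p n) F c).trans
        (mul_le_mul_of_nonneg_right ((V2b_card hF).trans hLx2) hT0)
    refine (Finset.sum_le_sum hterm).trans ?_
    rw [Finset.sum_const, nsmul_eq_mul, Near.pr_card]
    have h5 : (x2 : ℝ) ≤ (16 * C1 + 2 + x2) * 2 ^ t := by
      have h6 : (x2 : ℝ) ≤ 16 * C1 + 2 + x2 := by linarith
      have h7 : (0 : ℝ) ≤ 16 * C1 + 2 + x2 := by positivity
      nlinarith
    calc (ppi x : ℝ) * (x2 * T) = x2 * (ppi x * T) := by ring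
      _ ≤ ((16 * C1 + 2 + x2) * 2 ^ t) * (ppi x * T) := mul_le_mul_of_nonneg_right h5 (by positivity)
      _ = _ := by ring
  obtain ⟨⟨⟨hz5, hpl, hx2'⟩, hlogL⟩, hxx1⟩ := hx2 x hxx
  have hx2r : (2 : ℝ) ≤ x := by exact_mod_cast hx2'
  have hx0 : (0 : ℝ) < x := by linarith
  have hlog : 0 < Real.log x := Real.log_pos (by linarith)
  set z := (x : ℝ) ^ (1 / 4 : ℝ) with hz
  have hz0 : 0 < z := Real.rpow_pos_of_pos hx0 _
  have hz1 : 1 ≤ z := Real.one_le_rpow (by linarith) (by norm_num)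
  have hzz : z * z = Real.sqrt x := by
    rw [hz, ← Real.rpow_add hx0, Real.sqrt_eq_rpow]
    norm_num
  have hz4 : z ^ 4 = x := by
    rw [hz, ← Real.rpow_natCast, ← Real.rpow_mul hx0.le]
    norm_num
  have hj2 : (j : ℝ) ^ 2 ≤ z := by
    have h1 : |(j : ℝ)| ^ 2 ≤ ((x : ℝ) ^ (1 / 8 : ℝ)) ^ 2 := pow_le_pow_left₀ (abs_nonneg _) hjx 2
    have e : ((x : ℝ) ^ (1 / 8 : ℝ)) ^ 2 = z := by
      rw [hz, ← Real.rpow_natCast, ← Real.rpow_mul hx0.le]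
      norm_num
    rwa [sq_abs, e] at h1
  set M := ⌊(1 - δ) * Real.log x⌋₊ with hM
  have hd0 : 0 ≤ (1 - δ) * Real.log x := by
    have : 0 < 1 - δ := by linarith
    positivity
  have hML : (M : ℝ) ≤ (1 - δ) * Real.log x := Nat.floor_le hd0
  have hLM : L ≤ M := Nat.le_floor hLx
  have hL1M : L1 ≤ M := by
    refine Nat.le_floor ?_
    rw [div_le_iff₀ (by linarith)] at hlogL
    linarith
  have hFM : F ⊆ Icc 1 M := hF.trans (Finset.Icc_subset_Icc_right hLM)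
  have hMlog : (M : ℝ) ≤ Real.log x := by nlinarith
  have hMz : (M : ℝ) ≤ 1 / 5 * z := hMlog.trans hz5
  have hM0 : (0 : ℝ) ≤ M := Nat.cast_nonneg _
  have hQ := Poi.P4_QQ_pos M
  have hφ : (0 : ℝ) < ((QQ M).totient : ℝ) := by exact_mod_cast Nat.totient_pos.2 hQ
  have hQx : (QQ M : ℝ) ≤ (x : ℝ) ^ (1 - δ / 2) := by
    have hQr : (0 : ℝ) < QQ M := by exact_mod_cast hQ
    rw [← Real.exp_log hQr, ← Real.exp_log (Real.rpow_pos_of_pos hx0 _), Real.log_rpow hx0]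
    apply Real.exp_le_exp.2
    refine (hL1 M hL1M).trans ?_
    have h1 : (1 + δ / 2) * (M : ℝ) ≤ (1 + δ / 2) * ((1 - δ) * Real.log x) :=
      mul_le_mul_of_nonneg_left hML (by positivity)
    have h2 : (1 + δ / 2) * ((1 - δ) * Real.log x) ≤ (1 - δ / 2) * Real.log x := by
      have : 0 ≤ δ ^ 2 / 2 * Real.log x := by positivity
      nlinarith
    linarith
  set Fu : ℕ → ℝ := fun u => ‖∑ n ∈ F, c n * e1 ((j : ℝ) * YY u n)‖ ^ 2 with hFu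
  have hFu0 : ∀ u, 0 ≤ Fu u := fun u => by positivity
  have hmean := hbt x (QQ M) hxx1 hQ hQx Fu (fun u _ => hFu0 u)
  have hgram := gram_u (j := j) (t := t) hj (L := M) hFM c
  -- the terms
  set S : ℕ → ℝ := fun p => ∑ u ∈ (UU (QQ M)).filter (fun u => u * p ≡ 1 [MOD QQ M]), Fu u with hS
  have hS0 : ∀ p, 0 ≤ S p := fun p => Finset.sum_nonneg fun u _ => hFu0 u
  have hterm : ∀ p ∈ pr x, ‖∑ n ∈ F, c n * e1 ((j : ℝ) * yy p n)‖ ^ 2 ≤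
      2 * S p + T + (if p ∈ range (Nat.sqrt x + 1) then Real.log x * T else 0) := by
    intro p hp
    have hpp : p.Prime := (mem_filter.1 hp).2
    split_ifs with hps
    · have h1 := (V2b_cs (fun n => (j : ℝ) * yy p n) F c).trans
        (mul_le_mul_of_nonneg_right ((V2b_card hFM).trans hMlog) hT0)
      have h2 := hS0 p
      linarith
    · rw [mem_range] at hps
      push Not at hps
      have hp1 : Nat.sqrt x < p := hps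
      have hp2 : (x : ℝ) < (p : ℝ) ^ 2 := by
        have h1 : x < p * p := Nat.sqrt_lt.1 hp1
        rw [sq]
        exact_mod_cast h1
      have hp3 : Real.sqrt x < p := by
        rw [Real.sqrt_lt' (by exact_mod_cast hpp.pos)]
        exact hp2
      have hMp : M < p := by
        have : (M : ℝ) < p := by nlinarith
        exact_mod_cast this
      have hcop : p.Coprime (QQ M) := by
        rw [Nat.Prime.coprime_iff_not_dvd hpp]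
        intro h
        have h1 := (Nat.Prime.dvd_factorial hpp).1 (h.trans (Poi.P4_QQ_dvd M))
        omega
      obtain ⟨u, hu, hup⟩ := Poi.P4_inv hQ hcop
      have h1 := point_sq (j := j) hpp hMp hup hFM c
      have h2 : Fu u ≤ S p := Finset.single_le_sum (f := Fu) (fun u _ => hFu0 u) (mem_filter.2 ⟨hu, hup⟩)
      have hp0 : (0 : ℝ) < (p : ℝ) ^ 2 := by have := hpp.pos; positivity
      have h3 : 80 * (j : ℝ) ^ 2 * (M : ℝ) ^ 3 / (p : ℝ) ^ 2 ≤ 1 := by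
        rw [div_le_one hp0]
        have h4 : (M : ℝ) ^ 3 ≤ (1 / 5 * z) ^ 3 := pow_le_pow_left₀ hM0 hMz 3
        have h5 : (j : ℝ) ^ 2 * (M : ℝ) ^ 3 ≤ z * (1 / 5 * z) ^ 3 :=
          mul_le_mul hj2 h4 (by positivity) hz0.le
        have h6 : z * (1 / 5 * z) ^ 3 = z ^ 4 / 125 := by ring
        rw [h6, hz4] at h5
        linarith
      have h7 := mul_le_mul_of_nonneg_right h3 hT0
      rw [one_mul] at h7
      linarith
  refine (Finset.sum_le_sum hterm).trans ?_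
  rw [Finset.sum_add_distrib, Finset.sum_add_distrib, ← Finset.mul_sum, Finset.sum_const, nsmul_eq_mul, Near.pr_card]
  have hA : ∑ p ∈ pr x, S p ≤ C1 * ppi x * (8 * 2 ^ t) * T := by
    refine hmean.trans ?_
    have h1 : C1 * ppi x / ((QQ M).totient : ℝ) * ∑ u ∈ UU (QQ M), Fu u ≤
        C1 * ppi x / ((QQ M).totient : ℝ) * (((QQ M).totient : ℝ) * (8 * 2 ^ t) * T) :=
      mul_le_mul_of_nonneg_left hgram (by positivity)
    refine h1.trans (le_of_eq ?_)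
    field_simp
  have hB : ∑ p ∈ pr x, (if p ∈ range (Nat.sqrt x + 1) then Real.log x * T else 0) ≤ ppi x * T := by
    have h1 : ∑ p ∈ pr x, (if p ∈ range (Nat.sqrt x + 1) then Real.log x * T else 0) ≤
        ((Nat.sqrt x : ℝ) + 1) * (Real.log x * T) := by
      rw [Finset.sum_ite_mem, Finset.sum_const, nsmul_eq_mul]
      refine mul_le_mul_of_nonneg_right ?_ (by positivity)
      have h2 := Finset.card_le_card (Finset.inter_subset_right (s₁ := pr x) (s₂ := range (Nat.sqrt x + 1)))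
      rw [card_range] at h2
      exact_mod_cast h2
    refine h1.trans ?_
    have h3 : (Nat.sqrt x : ℝ) ≤ Real.sqrt x := Real.nat_sqrt_le_real_sqrt
    have h4 : ((Nat.sqrt x : ℝ) + 1) * Real.log x ≤ ppi x := by
      rw [lt_div_iff₀ hx0] at hpl
      have h5 : ((Nat.sqrt x : ℝ) + 1) * Real.log x * Real.log x ≤ ppi x * Real.log x := by
        have h6 : (Nat.sqrt x : ℝ) + 1 ≤ 2 * (z * z) := by
          rw [hzz]
          have : 1 ≤ Real.sqrt x := by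
            rw [Real.one_le_sqrt]
            linarith
          linarith
        have h7 : Real.log x * Real.log x ≤ (1 / 5 * z) * (1 / 5 * z) :=
          mul_le_mul hz5 hz5 hlog.le (by positivity)
        have h8 : ((Nat.sqrt x : ℝ) + 1) * (Real.log x * Real.log x) ≤
            (2 * (z * z)) * ((1 / 5 * z) * (1 / 5 * z)) :=
          mul_le_mul h6 h7 (by positivity) (by positivity)
        have h9 : (2 * (z * z)) * ((1 / 5 * z) * (1 / 5 * z)) = 2 / 25 * z ^ 4 := by ring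
        rw [h9, hz4] at h8
        nlinarith
      exact le_of_mul_le_mul_right h5 hlog
    calc ((Nat.sqrt x : ℝ) + 1) * (Real.log x * T) = ((Nat.sqrt x : ℝ) + 1) * Real.log x * T := by ring
      _ ≤ ppi x * T := mul_le_mul_of_nonneg_right h4 hT0
  have hfin : 2 * (C1 * ppi x * (8 * 2 ^ t) * T) + ppi x * T + ppi x * T ≤
      (16 * C1 + 2 + x2) * 2 ^ t * ppi x * T := by
    have hpT : 0 ≤ ppi x * T := by positivity
    have h1 : 2 * (ppi x * T) ≤ 2 * 2 ^ t * (ppi x * T) := by nlinarith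
    have h2 : 0 ≤ (x2 : ℝ) * 2 ^ t * (ppi x * T) := by positivity
    nlinarith
  linarith

end Pool.Agent.Lib.MP_de5eaa_nt.Uni
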