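import Pool.Agent.Lib.MP_de5eaa_nt.Uni.V2
import Pool.Agent.Lib.MP_de5eaa_nt.Near.O4

set_option autoImplicit false

namespace Pool.Agent.Lib.MP_de5eaa_nt.Uni

open Finset Filter Topology
open Pool.Agent.Lib.MP_de5eaa_nt.Near (hs wq e1 yy pr ppi EE ww)
open Pool.Agent.Lib.MP_de5eaa_nt.Poi (QQ UU YY)

/-- ROW V3a (duality), from `ls_primes` with the same `C`. Let `b n = ∑ p ∈ S, e1 (j yy p n)`, `T = ∑ n ∈ F, ‖b n‖^2`, `c n = conj (b n)`.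
`T = ∑_n c n b n = ∑_{p ∈ S} ∑_n c n e1 (j yy p n)`, so by Cauchy-Schwarz `T ≤ √(S.card) √(∑_{p ∈ S} ‖∑_n c n e1 (j yy p n)‖^2)
≤ √(S.card) √(C 2^t ppi x T)` (`S ⊆ pr x`, nonnegative terms), i.e. `T^2 ≤ S.card C 2^t ppi x T`; divide by `T` (or `T = 0`). -/
theorem ls_orders {δ : ℝ} (hδ : 0 < δ) (hδ1 : δ < 1) : ∃ C : ℝ, 0 < C ∧ ∀ x L : ℕ, (L : ℝ) ≤ (1 - δ) * Real.log x →
    ∀ (j : ℤ) (t : ℕ), ¬ (2 : ℤ) ^ (t + 1) ∣ j → |(j : ℝ)| ≤ (x : ℝ) ^ (1 / 8 : ℝ) → ∀ F : Finset ℕ, F ⊆ Icc 1 L →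
      ∀ S : Finset ℕ, S ⊆ pr x → ∑ n ∈ F, ‖∑ p ∈ S, e1 ((j : ℝ) * yy p n)‖ ^ 2 ≤
        C * 2 ^ t * ppi x * S.card := by
  obtain ⟨C, hC, h⟩ := ls_primes hδ hδ1
  refine ⟨C, hC, fun x L hL j t ht hj F hF S hS => ?_⟩
  let b : ℕ → ℂ := fun n => ∑ p ∈ S, e1 ((j : ℝ) * yy p n)
  have h1 := h x L hL j t ht hj F hF (fun n => (starRingEnd ℂ) (b n))
  change ∑ n ∈ F, ‖b n‖ ^ 2 ≤ C * 2 ^ t * ppi x * S.card
  obtain ⟨T, hT⟩ : ∃ T : ℝ, T = ∑ n ∈ F, ‖b n‖ ^ 2 := ⟨_, rfl⟩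
  have hT0 : 0 ≤ T := by
    rw [hT]
    exact Finset.sum_nonneg fun n _ => by positivity
  have h2 : (T : ℂ) = ∑ p ∈ S, ∑ n ∈ F, (starRingEnd ℂ) (b n) * e1 ((j : ℝ) * yy p n) := by
    rw [Finset.sum_comm, hT, Complex.ofReal_sum]
    refine Finset.sum_congr rfl fun n _ => ?_
    rw [← Finset.mul_sum]
    change ((‖b n‖ ^ 2 : ℝ) : ℂ) = (starRingEnd ℂ) (b n) * b n
    rw [mul_comm, Complex.mul_conj, Complex.normSq_eq_norm_sq]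
  have h3 : T ≤ ∑ p ∈ S, ‖∑ n ∈ F, (starRingEnd ℂ) (b n) * e1 ((j : ℝ) * yy p n)‖ := by
    have h : T = ‖(T : ℂ)‖ := by rw [Complex.norm_real, Real.norm_of_nonneg hT0]
    rw [h, h2]
    exact norm_sum_le _ _
  have h4 : T ^ 2 ≤ S.card *
      ∑ p ∈ S, ‖∑ n ∈ F, (starRingEnd ℂ) (b n) * e1 ((j : ℝ) * yy p n)‖ ^ 2 :=
    (pow_le_pow_left₀ hT0 h3 2).trans sq_sum_le_card_mul_sum_sq
  have h5 : ∑ p ∈ S, ‖∑ n ∈ F, (starRingEnd ℂ) (b n) * e1 ((j : ℝ) * yy p n)‖ ^ 2 ≤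
      ∑ p ∈ pr x, ‖∑ n ∈ F, (starRingEnd ℂ) (b n) * e1 ((j : ℝ) * yy p n)‖ ^ 2 :=
    Finset.sum_le_sum_of_subset_of_nonneg hS fun _ _ _ => by positivity
  have h6 : ∑ n ∈ F, ‖(starRingEnd ℂ) (b n)‖ ^ 2 = T := by
    rw [hT]
    exact Finset.sum_congr rfl fun n _ => by rw [RCLike.norm_conj]
  rw [h6] at h1
  have h7 : T * T ≤ (C * 2 ^ t * ppi x * S.card) * T := by
    calc T * T = T ^ 2 := by ring
      _ ≤ S.card * (C * 2 ^ t * ppi x * T) :=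
        h4.trans (mul_le_mul_of_nonneg_left (h5.trans h1) (by positivity))
      _ = (C * 2 ^ t * ppi x * S.card) * T := by ring
  rw [← hT]
  rcases hT0.eq_or_lt with h0 | h0
  · rw [← h0]
    positivity
  · exact le_of_mul_le_mul_right h7 h0

/-- the second moment over the points of the weighted mean of the exponential sums -/
theorem V3b_moment {ι : Type*} (T : Finset ι) (I : Finset ℕ) (y : ι → ℕ → ℝ) (K : ℕ) {X : ℝ} (hX : 0 ≤ X)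
    (hmom : ∀ k ∈ (range (2 * K + 1)).erase K,
      ∑ i ∈ T, ‖∑ n ∈ I, e1 ((((k : ℤ) - (K : ℕ) : ℤ) : ℝ) * y i n)‖ ^ 2 ≤
        2 ^ padicValNat 2 ((k : ℤ) - (K : ℕ)).natAbs * X) :
    ∑ i ∈ T, EE K I (y i) ^ 2 ≤
      (ww K K * ((harmonic K : ℚ) : ℝ)) *
        (ww K K * (((Nat.log 2 K : ℕ) + 1) * ((harmonic K : ℚ) : ℝ)) * X) := by
  set W := ww K K with hW
  have hW0 : 0 ≤ W := Near.ww_nonneg _ _
  set H := ((harmonic K : ℚ) : ℝ) with hH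
  have hH0 : 0 ≤ H := by
    rw [hH, ← Near.cc_sum]
    exact Finset.sum_nonneg fun k _ => Near.cc_nonneg _ _
  set s := (range (2 * K + 1)).erase K with hs
  set g : ℕ → ℝ := fun i => (2 : ℝ) ^ padicValNat 2 i with hg
  have h2 : ∑ i ∈ T, EE K I (y i) ^ 2 ≤
      ∑ i ∈ T, (W * H) * ∑ k ∈ s, (ww K k * Near.cc K k) *
        ‖∑ n ∈ I, e1 ((((k : ℤ) - (K : ℕ) : ℤ) : ℝ) * y i n)‖ ^ 2 :=
    Finset.sum_le_sum fun i _ => Near.EE_sq' K I (y i)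
  refine h2.trans ?_
  rw [← Finset.mul_sum, Finset.sum_comm]
  apply mul_le_mul_of_nonneg_left _ (mul_nonneg hW0 hH0)
  have h3 : ∀ k ∈ s, ∑ i ∈ T, (ww K k * Near.cc K k) *
      ‖∑ n ∈ I, e1 ((((k : ℤ) - (K : ℕ) : ℤ) : ℝ) * y i n)‖ ^ 2 ≤
      (W * X) * (Near.cc K k * g (((K : ℕ) : ℤ) - (k : ℤ)).natAbs) := by
    intro k hk
    rw [← Finset.mul_sum]
    have h4 := mul_le_mul_of_nonneg_left (hmom k hk) (mul_nonneg (Near.ww_nonneg K k) (Near.cc_nonneg K k))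
    refine h4.trans ?_
    have e : ((k : ℤ) - (K : ℕ) : ℤ).natAbs = (((K : ℕ) : ℤ) - (k : ℤ)).natAbs := by omega
    rw [e]
    have hG : (2 : ℝ) ^ padicValNat 2 (((K : ℕ) : ℤ) - (k : ℤ)).natAbs = g (((K : ℕ) : ℤ) - (k : ℤ)).natAbs := rfl
    rw [hG]
    have hg0 : 0 ≤ g (((K : ℕ) : ℤ) - (k : ℤ)).natAbs := by
      rw [hg]
      positivity
    generalize g (((K : ℕ) : ℤ) - (k : ℤ)).natAbs = G at hg0
    have h6 : ww K k * Near.cc K k ≤ W * Near.cc K k :=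
      mul_le_mul_of_nonneg_right (Near.ww_le K k) (Near.cc_nonneg K k)
    refine (mul_le_mul_of_nonneg_right h6 (mul_nonneg hg0 hX)).trans (le_of_eq ?_)
    ring
  refine (Finset.sum_le_sum h3).trans ?_
  rw [← Finset.mul_sum, Near.cc_sum' K g]
  have h4 := Near.two_sum K
  have h5 : ∑ i ∈ range K, g (i + 1) / ((i + 1 : ℕ) : ℝ) ≤ ((Nat.log 2 K : ℕ) + 1) * H := h4
  have h6 := mul_le_mul_of_nonneg_left h5 (mul_nonneg hW0 hX)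
  refine h6.trans (le_of_eq ?_)
  ring

open Classical in
/-- ROW V3b. The proofs of `Near.EE_moment_sub` and `Near.exc_orders_sub` (file `Near/P4.lean`) with `F`, `S`, `yy` replaced by
`T`, `I`, `y`, `ppi x` by `Z`, and the moments `(8 g + 1) ppi^2` by `g X` (`g = 2 ^ padicValNat 2 |k - K|`). Lemmas: `Near.EE_sq'`, `Near.cc_nonneg`,
`Near.cc_sum`, `Near.cc_sum'`, `Near.two_sum`, `Near.ww_le`, `Near.ww_nonneg`, `Near.ww_mid_pos`. -/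
theorem exc_generic {ι : Type*} (T : Finset ι) (I : Finset ℕ) (y : ι → ℕ → ℝ) {R : ℕ} (hR : 2 ≤ R) {X Z : ℝ} (hX : 0 ≤ X)
    (hZ : 0 < Z) (hmom : ∀ k ∈ (range (2 * R ^ 3 + 1)).erase (R ^ 3),
      ∑ i ∈ T, ‖∑ n ∈ I, e1 ((((k : ℤ) - ((R ^ 3 : ℕ) : ℤ) : ℤ) : ℝ) * y i n)‖ ^ 2 ≤
        2 ^ padicValNat 2 ((k : ℤ) - ((R ^ 3 : ℕ) : ℤ)).natAbs * X) :
    ((T.filter fun i => ww (R ^ 3) (R ^ 3) * (Z / R) < EE (R ^ 3) I (y i)).card : ℝ) ≤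
      (R : ℝ) ^ 2 * ((harmonic (R ^ 3) : ℚ) : ℝ) ^ 2 * ((Nat.log 2 (R ^ 3) : ℕ) + 1) * X / Z ^ 2 := by
  have hx := V3b_moment T I y (R ^ 3) hX hmom
  set K := R ^ 3 with hK
  have hRp : (0 : ℝ) < R := by
    have : 0 < R := by omega
    exact_mod_cast this
  set W := ww K K with hW
  have hWp : 0 < W := Near.ww_mid_pos hR
  set H := ((harmonic K : ℚ) : ℝ) with hH
  set E := T.filter fun i => W * (Z / R) < EE K I (y i) with hE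
  have h1 : (E.card : ℝ) * (W * (Z / R)) ^ 2 ≤ ∑ i ∈ T, EE K I (y i) ^ 2 := by
    rw [← nsmul_eq_mul, ← Finset.sum_const]
    have h2 : ∑ _i ∈ E, (W * (Z / R)) ^ 2 ≤ ∑ i ∈ E, EE K I (y i) ^ 2 := by
      refine Finset.sum_le_sum fun i hi => ?_
      rw [hE, mem_filter] at hi
      exact pow_le_pow_left₀ (by positivity) hi.2.le 2
    exact h2.trans (Finset.sum_le_sum_of_subset_of_nonneg (Finset.filter_subset _ _) fun i _ _ => sq_nonneg _)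
  have h2 := h1.trans hx
  rw [le_div_iff₀ (by positivity : (0 : ℝ) < Z ^ 2)]
  have e2 : (E.card : ℝ) * (W * (Z / R)) ^ 2 = ((E.card : ℝ) * Z ^ 2) * (W ^ 2 / R ^ 2) := by
    ring
  have e3 : (W * H) * (W * (((Nat.log 2 K : ℕ) + 1) * H) * X) =
      ((R : ℝ) ^ 2 * H ^ 2 * ((Nat.log 2 K : ℕ) + 1) * X) * (W ^ 2 / R ^ 2) := by
    field_simp
  rw [e2, e3] at h2
  exact le_of_mul_le_mul_right h2 (by positivity)

/-- ROW V3c. For `x ≥ x2` (large) and `N^2 ≤ log x` all the frequencies `k - (10 N)^3` are at most `(10 N)^3 ≤ 1000 (log x)^{3/2} ≤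
x^{1/8}`. -/
theorem freq_le : ∃ x2 : ℕ, 2 ≤ x2 ∧ ∀ x N : ℕ, x2 ≤ x → (N : ℝ) ^ 2 ≤ Real.log x →
    (((10 * N) ^ 3 : ℕ) : ℝ) ≤ (x : ℝ) ^ (1 / 8 : ℝ) := by
  have h2 : ∀ᶠ x : ℕ in atTop, ‖Real.log (x : ℝ)‖ ≤ 1 / 32 * ‖(x : ℝ) ^ (1 / 16 : ℝ)‖ :=
    (tendsto_natCast_atTop_atTop (R := ℝ)).eventually
      ((isLittleO_log_rpow_atTop (r := 1 / 16) (by norm_num)).bound (by norm_num))
  obtain ⟨x2, hx2⟩ := eventually_atTop.1 (h2.and (eventually_ge_atTop 2))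
  refine ⟨max x2 2, le_max_right _ _, fun x N hx hN => ?_⟩
  obtain ⟨h3, h4⟩ := hx2 x ((le_max_left _ _).trans hx)
  have hx0 : (0 : ℝ) < x := by
    have : (2 : ℝ) ≤ x := by exact_mod_cast h4
    linarith
  have hlog : 0 ≤ Real.log x := le_trans (by positivity) hN
  have hz : (0 : ℝ) < (x : ℝ) ^ (1 / 16 : ℝ) := Real.rpow_pos_of_pos hx0 _
  rw [Real.norm_eq_abs, abs_of_nonneg hlog, Real.norm_eq_abs, abs_of_pos hz] at h3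
  have h5 : (x : ℝ) ^ (1 / 8 : ℝ) = ((x : ℝ) ^ (1 / 16 : ℝ)) ^ 2 := by
    rw [← Real.rpow_natCast, ← Real.rpow_mul hx0.le]
    norm_num
  have h6 : (N : ℝ) ^ 3 ≤ ((N : ℝ) ^ 2) ^ 2 := by
    rcases Nat.eq_zero_or_pos N with h | h
    · subst h
      norm_num
    · have h7 : (1 : ℝ) ≤ N := by exact_mod_cast h
      rw [← pow_mul]
      exact pow_le_pow_right₀ h7 (by norm_num)
  have h8 : ((N : ℝ) ^ 2) ^ 2 ≤ (1 / 32 * (x : ℝ) ^ (1 / 16 : ℝ)) ^ 2 :=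
    pow_le_pow_left₀ (by positivity) (hN.trans h3) 2
  have h9 : (((10 * N) ^ 3 : ℕ) : ℝ) = 1000 * (N : ℝ) ^ 3 := by
    push_cast
    ring
  rw [h9, h5]
  nlinarith [sq_nonneg ((x : ℝ) ^ (1 / 16 : ℝ))]

end Pool.Agent.Lib.MP_de5eaa_nt.Uni
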