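import Pool.Agent.Lib.MP_de5eaa_nt.Uni.V3
import Pool.Agent.Lib.MP_de5eaa_nt.Near.P4
import Pool.Agent.Lib.MP_de5eaa_nt.Near.O5

set_option autoImplicit false

namespace Pool.Agent.Lib.MP_de5eaa_nt.Uni

open Finset Filter Topology
open Pool.Agent.Lib.MP_de5eaa_nt.Near (hs wq e1 yy pr ppi EE ww arc)
open Pool.Agent.Lib.MP_de5eaa_nt.Poi (QQ UU YY)

open Classical in
/-- ROW V4a. We may suppose `δ < 1` (replace `δ` by `min δ (1/2)`). `C0` from `ls_primes`, `x2` from `freq_le`; `C = max 1 (max (log x2 + 1)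
(C0 * 100000))` or so. Let `B = N^2 (1 + log N)^3 ≥ 1`.
If `B ≥ L` or `x < x2` (then `L ≤ log x2`) the right side is at least `ppi x = (pr x).card` (`Near.pr_card`): trivial.
Otherwise `N^2 ≤ L ≤ log x`; `exc_generic` with `T = pr x`, `I = Ioc M (M + L)`, `y = yy`, `R = 10 N`, `Z = L`, `X = C0 ppi x L`: `hmom` is
`ls_primes` with `F = Ioc M (M+L) ⊆ Icc 1 (M+L)`, `c = 1`, `j = k - (10 N)^3` (`|j| ≤ (10 N)^3 ≤ x^{1/8}`, `freq_le`;
`Near.not_dvd_int` with `t = padicValNat 2 |j|`). So at most `R^2 H^2 (log2 + 1) C0 ppi x L/L^2` primes have `ww (L/R) < EE`, and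
`9 R^2 H^2 (log2 + 1) ≤ 700000 B` (`Near.const_le`). For the other primes `Near.arc_discrepancy` gives `|arc - ℓ L| ≤ L/N`. -/
theorem primes_u {δ : ℝ} (hδ : 0 < δ) : ∃ C : ℝ, 0 < C ∧ ∀ N M L x : ℕ, 1 ≤ N → 1 ≤ L →
    ((M + L : ℕ) : ℝ) ≤ (1 - δ) * Real.log x →
    (((pr x).filter fun p => ∃ θ ℓ : ℝ, 0 ≤ ℓ ∧ ℓ ≤ 1 ∧ (L : ℝ) / N < |(arc M L p θ ℓ : ℝ) - ℓ * L|).card : ℝ) ≤
      C * (N : ℝ) ^ 2 * (1 + Real.log N) ^ 3 / L * ppi x := by
  have hδ1 : 0 < min δ (1 / 2) := lt_min hδ (by norm_num)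
  have hδ2 : min δ (1 / 2) < 1 := lt_of_le_of_lt (min_le_right _ _) (by norm_num)
  obtain ⟨C0, hC0, hls⟩ := ls_primes hδ1 hδ2
  obtain ⟨x2, hx2, hfreq⟩ := freq_le
  have hlx2 : 0 ≤ Real.log x2 := Real.log_natCast_nonneg x2
  refine ⟨1 + Real.log x2 + 100000 * C0, by positivity, ?_⟩
  intro N M L x hN hL hML
  set C : ℝ := 1 + Real.log x2 + 100000 * C0 with hC
  have hC0' : 0 < C := by positivity
  have hNp : (1 : ℝ) ≤ N := by exact_mod_cast hN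
  have hLp : (0 : ℝ) < L := by
    have : 0 < L := by omega
    exact_mod_cast this
  have hlN : 0 ≤ Real.log N := Real.log_nonneg hNp
  have hlx : 0 ≤ Real.log x := Real.log_natCast_nonneg x
  have hpp : (0 : ℝ) ≤ ppi x := Nat.cast_nonneg _
  set B : ℝ := (N : ℝ) ^ 2 * (1 + Real.log N) ^ 3 with hB
  have h13 : (1 : ℝ) ≤ (1 + Real.log N) ^ 3 := one_le_pow₀ (by linarith)
  have hN2B : (N : ℝ) ^ 2 ≤ B := le_mul_of_one_le_right (by positivity) h13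
  have hB1 : 1 ≤ B := (one_le_pow₀ hNp).trans hN2B
  have hLlog : (L : ℝ) ≤ Real.log x := by
    have h1 : (L : ℝ) ≤ ((M + L : ℕ) : ℝ) := by
      push_cast
      have : (0 : ℝ) ≤ M := Nat.cast_nonneg M
      linarith
    have h2 : (1 - δ) * Real.log x ≤ 1 * Real.log x := mul_le_mul_of_nonneg_right (by linarith) hlx
    linarith
  have hrhs : C * (N : ℝ) ^ 2 * (1 + Real.log N) ^ 3 / L * ppi x = C * B / L * ppi x := by
    rw [hB, mul_assoc C]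
  rw [hrhs]
  by_cases hcase : (L : ℝ) ≤ C * B
  · have h1 : 1 ≤ C * B / L := (one_le_div hLp).2 hcase
    have h2 : (((pr x).filter fun p => ∃ θ ℓ : ℝ, 0 ≤ ℓ ∧ ℓ ≤ 1 ∧
        (L : ℝ) / N < |(arc M L p θ ℓ : ℝ) - ℓ * L|).card : ℝ) ≤ ppi x := by
      rw [← Near.pr_card]
      exact_mod_cast Finset.card_filter_le _ _
    exact h2.trans (le_mul_of_one_le_left hpp h1)
  · rw [not_le] at hcase
    have hCx2 : 1 + Real.log x2 ≤ C := by
      rw [hC]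
      linarith
    have hCB : C ≤ C * B := le_mul_of_one_le_right hC0'.le hB1
    have hxx2 : x2 ≤ x := by
      by_contra hlt
      rw [not_le] at hlt
      have h3 : Real.log x ≤ Real.log x2 := by
        rcases Nat.eq_zero_or_pos x with h0 | h0
        · rw [h0, Nat.cast_zero, Real.log_zero]
          exact hlx2
        · exact Real.log_le_log (by exact_mod_cast h0) (by exact_mod_cast hlt.le)
      linarith
    have hN2 : (N : ℝ) ^ 2 ≤ Real.log x := by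
      have h3 : B ≤ C * B := le_mul_of_one_le_left (by linarith) (by linarith)
      linarith
    have hfr := hfreq x N hxx2 hN2
    have hML' : ((M + L : ℕ) : ℝ) ≤ (1 - min δ (1 / 2)) * Real.log x := by
      refine hML.trans (mul_le_mul_of_nonneg_right ?_ hlx)
      have := min_le_left δ (1 / 2)
      linarith
    have hX0 : 0 ≤ C0 * ppi x * L := by positivity
    have hexc := exc_generic (pr x) (Ioc M (M + L)) yy (R := 10 * N) (by omega) hX0 hLp (by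
      intro k hk
      rw [mem_erase, mem_range] at hk
      obtain ⟨hk1, hk2⟩ := hk
      have hne : ((k : ℤ) - (((10 * N) ^ 3 : ℕ) : ℤ) : ℤ) ≠ 0 := by
        intro h0
        apply hk1
        omega
      have hj : |(((k : ℤ) - (((10 * N) ^ 3 : ℕ) : ℤ) : ℤ) : ℝ)| ≤ (x : ℝ) ^ (1 / 8 : ℝ) := by
        refine le_trans ?_ hfr
        have h3 : |((k : ℤ) - (((10 * N) ^ 3 : ℕ) : ℤ) : ℤ)| ≤ (((10 * N) ^ 3 : ℕ) : ℤ) := by
          rw [abs_le]
          constructor <;> omega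
        exact_mod_cast h3
      have h4 := hls x (M + L) hML' ((k : ℤ) - (((10 * N) ^ 3 : ℕ) : ℤ))
        (padicValNat 2 ((k : ℤ) - (((10 * N) ^ 3 : ℕ) : ℤ)).natAbs) (Near.not_dvd_int hne) hj
        (Ioc M (M + L)) (fun n hn => by
          rw [mem_Ioc] at hn
          rw [mem_Icc]
          omega) (fun _ => 1)
      simp only [one_mul, norm_one, one_pow, Finset.sum_const, Nat.card_Ioc,
        Nat.add_sub_cancel_left, nsmul_eq_mul, mul_one] at h4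
      refine h4.trans (le_of_eq ?_)
      ring)
    have hsub : ((pr x).filter fun p => ∃ θ ℓ : ℝ, 0 ≤ ℓ ∧ ℓ ≤ 1 ∧
        (L : ℝ) / N < |(arc M L p θ ℓ : ℝ) - ℓ * L|) ⊆
        (pr x).filter fun p => ww ((10 * N) ^ 3) ((10 * N) ^ 3) * ((L : ℝ) / (10 * N : ℕ)) <
          EE ((10 * N) ^ 3) (Ioc M (M + L)) (yy p) := by
      intro p hp
      rw [mem_filter] at hp ⊢
      refine ⟨hp.1, ?_⟩
      by_contra h6
      rw [not_lt] at h6
      obtain ⟨θ, ℓ, h7, h8, h9⟩ := hp.2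
      exact absurd (Near.arc_discrepancy hN h6 h7 h8) (not_le.2 h9)
    have hcard : (((pr x).filter fun p => ∃ θ ℓ : ℝ, 0 ≤ ℓ ∧ ℓ ≤ 1 ∧
        (L : ℝ) / N < |(arc M L p θ ℓ : ℝ) - ℓ * L|).card : ℝ) ≤
        (((pr x).filter fun p => ww ((10 * N) ^ 3) ((10 * N) ^ 3) * ((L : ℝ) / (10 * N : ℕ)) <
          EE ((10 * N) ^ 3) (Ioc M (M + L)) (yy p)).card : ℝ) := by
      exact_mod_cast Finset.card_le_card hsub
    refine hcard.trans (hexc.trans ?_)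
    have hconst := Near.const_le hN
    rw [← hB] at hconst
    set D : ℝ := (((10 * N : ℕ) : ℝ)) ^ 2 * ((harmonic ((10 * N) ^ 3) : ℚ) : ℝ) ^ 2 *
      ((Nat.log 2 ((10 * N) ^ 3) : ℕ) + 1) with hD
    have hD' : 9 * D ≤ 700000 * B := by
      refine le_trans (le_of_eq ?_) hconst
      rw [hD]
      ring
    have e1 : D * (C0 * ppi x * L) / (L : ℝ) ^ 2 = D * C0 / L * ppi x := by
      field_simp
    rw [e1]
    refine mul_le_mul_of_nonneg_right (div_le_div_of_nonneg_right ?_ hLp.le) hpp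
    have h5 : D ≤ 100000 * B := by linarith
    have h6 : D * C0 ≤ 100000 * B * C0 := mul_le_mul_of_nonneg_right h5 hC0.le
    have h7 : 100000 * C0 * B ≤ C * B := by
      refine mul_le_mul_of_nonneg_right ?_ (by linarith)
      rw [hC]
      linarith
    linarith

/-- The quantity `N^2 (1 + log N)^3` is at least `N^2`. -/
theorem V4b_B {N : ℕ} (hN : 1 ≤ N) : (N : ℝ) ^ 2 ≤ (N : ℝ) ^ 2 * (1 + Real.log N) ^ 3 ∧
    1 ≤ (N : ℝ) ^ 2 * (1 + Real.log N) ^ 3 := by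
  have hNp : (1 : ℝ) ≤ N := by exact_mod_cast hN
  have hl : 0 ≤ Real.log N := Real.log_nonneg hNp
  have h3 : 1 ≤ (1 + Real.log N) ^ 3 := one_le_pow₀ (by linarith)
  have h2 : 1 ≤ (N : ℝ) ^ 2 := one_le_pow₀ hNp
  constructor
  · exact le_mul_of_one_le_right (by linarith) h3
  · exact one_le_mul_of_one_le_of_one_le h2 h3

/-- The number of the exceptional orders, main range. -/
theorem V4b_exc {δ : ℝ} (hδ : 0 < δ) (hδ1 : δ < 1) : ∃ C0 : ℝ, 0 < C0 ∧ ∃ x2 : ℕ, 2 ≤ x2 ∧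
    ∀ N L x : ℕ, 1 ≤ N → x2 ≤ x → (L : ℝ) ≤ (1 - δ) * Real.log x → (N : ℝ) ^ 2 ≤ L → ∀ S ⊆ pr x,
      (((Icc 1 L).filter fun n => ww ((10 * N) ^ 3) ((10 * N) ^ 3) * ((ppi x : ℝ) / (10 * N : ℕ)) <
        EE ((10 * N) ^ 3) S (fun p => yy p n)).card : ℝ) ≤
        C0 * 700000 * ((N : ℝ) ^ 2 * (1 + Real.log N) ^ 3) := by
  obtain ⟨C0, hC0, hls⟩ := ls_orders hδ hδ1
  obtain ⟨x2, hx2, hfr⟩ := freq_le
  refine ⟨C0, hC0, x2, hx2, fun N L x hN hx hL hNL S hS => ?_⟩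
  have hx2' : 2 ≤ x := hx2.trans hx
  have hxr : (1 : ℝ) ≤ x := by
    have : 1 ≤ x := by omega
    exact_mod_cast this
  have hlx : 0 ≤ Real.log x := Real.log_nonneg hxr
  have hNlog : (N : ℝ) ^ 2 ≤ Real.log x := by
    refine hNL.trans (hL.trans ?_)
    have : δ * Real.log x ≥ 0 := mul_nonneg hδ.le hlx
    linarith
  have hppi : 0 < ppi x := by
    rw [← Pool.Agent.Lib.MP_de5eaa_nt.Near.pr_card]
    refine Finset.card_pos.2 ⟨2, ?_⟩
    unfold pr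
    rw [mem_filter, mem_range]
    exact ⟨by omega, Nat.prime_two⟩
  have hZ : (0 : ℝ) < ppi x := by exact_mod_cast hppi
  have hScard : (S.card : ℝ) ≤ ppi x := by
    have h := Finset.card_le_card hS
    rw [Pool.Agent.Lib.MP_de5eaa_nt.Near.pr_card] at h
    exact_mod_cast h
  have hfreq := hfr x N hx hNlog
  have hX : 0 ≤ C0 * (ppi x : ℝ) ^ 2 := by positivity
  have hmom : ∀ k ∈ (range (2 * (10 * N) ^ 3 + 1)).erase ((10 * N) ^ 3),
      ∑ n ∈ Icc 1 L, ‖∑ p ∈ S, e1 ((((k : ℤ) - (((10 * N) ^ 3 : ℕ) : ℤ) : ℤ) : ℝ) * yy p n)‖ ^ 2 ≤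
        2 ^ padicValNat 2 ((k : ℤ) - (((10 * N) ^ 3 : ℕ) : ℤ)).natAbs * (C0 * (ppi x : ℝ) ^ 2) := by
    intro k hk
    rw [mem_erase, mem_range] at hk
    obtain ⟨K, hK⟩ : ∃ K, K = (10 * N) ^ 3 := ⟨_, rfl⟩
    rw [← hK] at hk hfreq ⊢
    obtain ⟨j, hj⟩ : ∃ j : ℤ, j = (k : ℤ) - ((K : ℕ) : ℤ) := ⟨_, rfl⟩
    rw [← hj]
    have hj0 : j ≠ 0 := by
      rw [hj]
      omega
    have hjK : |j| ≤ (K : ℤ) := by
      rw [hj, abs_le]
      omega
    have hjr : |(j : ℝ)| ≤ (x : ℝ) ^ (1 / 8 : ℝ) := by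
      refine le_trans ?_ hfreq
      exact_mod_cast hjK
    refine (hls x L hL j (padicValNat 2 j.natAbs) (Pool.Agent.Lib.MP_de5eaa_nt.Near.not_dvd_int hj0)
      hjr (Icc 1 L) (Finset.Subset.refl _) S hS).trans ?_
    have h2 : (0 : ℝ) ≤ C0 * 2 ^ padicValNat 2 j.natAbs * ppi x := by positivity
    calc C0 * 2 ^ padicValNat 2 j.natAbs * ppi x * S.card
        ≤ C0 * 2 ^ padicValNat 2 j.natAbs * ppi x * ppi x := mul_le_mul_of_nonneg_left hScard h2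
      _ = _ := by ring
  have h1 := exc_generic (Icc 1 L) S (fun n p => yy p n) (R := 10 * N) (by omega) hX hZ hmom
  refine h1.trans ?_
  have h2 := Pool.Agent.Lib.MP_de5eaa_nt.Near.const_le hN
  have h3 : (0 : ℝ) ≤ (((10 * N : ℕ) : ℝ)) ^ 2 * ((harmonic ((10 * N) ^ 3) : ℚ) : ℝ) ^ 2 *
      ((Nat.log 2 ((10 * N) ^ 3) : ℕ) + 1) := by positivity
  have h4 : (((10 * N : ℕ) : ℝ)) ^ 2 * ((harmonic ((10 * N) ^ 3) : ℚ) : ℝ) ^ 2 *
      ((Nat.log 2 ((10 * N) ^ 3) : ℕ) + 1) ≤ 700000 * ((N : ℝ) ^ 2 * (1 + Real.log N) ^ 3) := by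
    linarith
  have hne : (ppi x : ℝ) ≠ 0 := hZ.ne'
  calc (((10 * N : ℕ) : ℝ)) ^ 2 * ((harmonic ((10 * N) ^ 3) : ℚ) : ℝ) ^ 2 *
      ((Nat.log 2 ((10 * N) ^ 3) : ℕ) + 1) * (C0 * (ppi x : ℝ) ^ 2) / (ppi x : ℝ) ^ 2
      = C0 * ((((10 * N : ℕ) : ℝ)) ^ 2 * ((harmonic ((10 * N) ^ 3) : ℚ) : ℝ) ^ 2 *
      ((Nat.log 2 ((10 * N) ^ 3) : ℕ) + 1)) := by field_simp
    _ ≤ C0 * (700000 * ((N : ℝ) ^ 2 * (1 + Real.log N) ^ 3)) := mul_le_mul_of_nonneg_left h4 hC0.le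
    _ = _ := by ring

open Classical in
/-- ROW V4b. The same with `ls_orders`: `L = ⌊(1-δ) log x⌋₊`, `T = Icc 1 L`, `I = S`, `y = fun n p => yy p n`, `Z = ppi x`, `X = C0 (ppi x)^2`
(`S.card ≤ ppi x`), `R = 10 N`. If `N^2 > L` or `x < x2` the right side is at least `L` (the number of all the orders, `L ≤ log x2`) for
`C` large (`(1 + log N)^3 ≥ 1`). Otherwise `N^2 ≤ L ≤ log x`, `ppi x > 0` (`x ≥ x2 ≥ 2`). For the orders with `EE ≤ ww (ppi x/R)` use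
`Near.arc_disc_sub` (`T := ppi x`), see `Near.orders_main_sub`. -/
theorem orders_u {δ : ℝ} (hδ : 0 < δ) : ∃ C : ℝ, 0 < C ∧ ∀ N x : ℕ, 1 ≤ N → ∀ S ⊆ pr x,
    (((Icc 1 ⌊(1 - δ) * Real.log x⌋₊).filter fun n => ∃ θ ℓ : ℝ, 0 ≤ ℓ ∧ ℓ ≤ 1 ∧ (ppi x : ℝ) / N <
      |((S.filter fun p => ∃ a : ℤ, θ ≤ yy p n - a ∧ yy p n - a ≤ θ + ℓ).card : ℝ) - ℓ * S.card|).card : ℝ) ≤
        C * (N : ℝ) ^ 2 * (1 + Real.log N) ^ 3 := by
  obtain ⟨δ', hδ'⟩ : ∃ d : ℝ, d = min δ (1 / 2) := ⟨_, rfl⟩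
  have hδ0 : 0 < δ' := by
    rw [hδ']
    exact lt_min hδ (by norm_num)
  have hδ1 : δ' < 1 := by
    rw [hδ']
    exact lt_of_le_of_lt (min_le_right _ _) (by norm_num)
  have hδle : δ' ≤ δ := by
    rw [hδ']
    exact min_le_left _ _
  obtain ⟨C0, hC0, x2, hx2, hexc⟩ := V4b_exc hδ0 hδ1
  have hlx2 : 0 ≤ Real.log x2 := Real.log_nonneg (by
    have : 1 ≤ x2 := by omega
    exact_mod_cast this)
  refine ⟨1 + Real.log x2 + C0 * 700000, by positivity, fun N x hN S hS => ?_⟩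
  obtain ⟨hB1, hB2⟩ := V4b_B hN
  obtain ⟨B, hB⟩ : ∃ B : ℝ, B = (N : ℝ) ^ 2 * (1 + Real.log N) ^ 3 := ⟨_, rfl⟩
  have hgoal : (1 + Real.log x2 + C0 * 700000) * (N : ℝ) ^ 2 * (1 + Real.log N) ^ 3 =
      (1 + Real.log x2 + C0 * 700000) * B := by
    rw [hB]
    ring
  rw [hgoal]
  rw [← hB] at hB1 hB2
  have hB0 : 0 ≤ B := by linarith
  obtain ⟨L, hL⟩ : ∃ L : ℕ, L = ⌊(1 - δ) * Real.log x⌋₊ := ⟨_, rfl⟩
  rw [← hL]
  have hlx : 0 ≤ Real.log x := Real.log_natCast_nonneg x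
  have hLle : (L : ℝ) ≤ (1 - δ') * Real.log x := by
    have h0 : 0 ≤ (1 - δ') * Real.log x := mul_nonneg (by linarith) hlx
    rcases le_total 0 ((1 - δ) * Real.log x) with h | h
    · rw [hL]
      refine (Nat.floor_le h).trans ?_
      exact mul_le_mul_of_nonneg_right (by linarith) hlx
    · rw [hL, Nat.floor_of_nonpos h]
      simpa using h0
  have hall : (((Icc 1 L).filter fun n => ∃ θ ℓ : ℝ, 0 ≤ ℓ ∧ ℓ ≤ 1 ∧ (ppi x : ℝ) / N <
      |((S.filter fun p => ∃ a : ℤ, θ ≤ yy p n - a ∧ yy p n - a ≤ θ + ℓ).card : ℝ) - ℓ * S.card|).card : ℝ)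
      ≤ L := by
    have h := Finset.card_filter_le (Icc 1 L) fun n => ∃ θ ℓ : ℝ, 0 ≤ ℓ ∧ ℓ ≤ 1 ∧ (ppi x : ℝ) / N <
      |((S.filter fun p => ∃ a : ℤ, θ ≤ yy p n - a ∧ yy p n - a ≤ θ + ℓ).card : ℝ) - ℓ * S.card|
    rw [Nat.card_Icc, Nat.add_sub_cancel] at h
    exact_mod_cast h
  have hC1 : B ≤ (1 + Real.log x2 + C0 * 700000) * B := le_mul_of_one_le_left hB0 (by
    have : 0 ≤ C0 * 700000 := by positivity
    linarith)
  have hC2 : Real.log x2 ≤ (1 + Real.log x2 + C0 * 700000) * B := by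
    have h1 : Real.log x2 ≤ Real.log x2 * B := le_mul_of_one_le_right hlx2 hB2
    have h2 : 0 ≤ C0 * 700000 * B := by positivity
    have h3 : (1 + Real.log x2 + C0 * 700000) * B = B + Real.log x2 * B + C0 * 700000 * B := by ring
    linarith
  have hC3 : C0 * 700000 * B ≤ (1 + Real.log x2 + C0 * 700000) * B := by
    refine mul_le_mul_of_nonneg_right ?_ hB0
    linarith
  rcases lt_or_ge x x2 with hx | hx
  · refine hall.trans (le_trans ?_ hC2)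
    have h1 : Real.log x ≤ Real.log x2 := by
      rcases Nat.eq_zero_or_pos x with h | h
      · rw [h]
        simpa using hlx2
      · exact Real.log_le_log (by exact_mod_cast h) (by exact_mod_cast hx.le)
    have h2 : (1 - δ') * Real.log x ≤ Real.log x := by
      have : 0 ≤ δ' * Real.log x := mul_nonneg hδ0.le hlx
      linarith
    exact hLle.trans (h2.trans h1)
  rcases lt_or_ge (L : ℝ) ((N : ℝ) ^ 2) with hNL | hNL
  · exact hall.trans ((hNL.le.trans hB1).trans hC1)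
  refine le_trans ?_ ((hexc N L x hN hx hLle hNL S hS).trans (by rw [← hB]; exact hC3))
  have hScard : (S.card : ℝ) ≤ ppi x := by
    have h := Finset.card_le_card hS
    rw [Pool.Agent.Lib.MP_de5eaa_nt.Near.pr_card] at h
    exact_mod_cast h
  refine Nat.cast_le.2 (Finset.card_le_card fun n hn => ?_)
  rw [mem_filter] at hn ⊢
  refine ⟨hn.1, ?_⟩
  obtain ⟨θ, ℓ, h0, h1, h2⟩ := hn.2
  by_contra hcon
  rw [not_lt] at hcon
  have h3 := Pool.Agent.Lib.MP_de5eaa_nt.Near.arc_disc_sub hN S (fun p => yy p n) hScard hcon (θ := θ) h0 h1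
  exact absurd h2 (not_lt.2 h3)

end Pool.Agent.Lib.MP_de5eaa_nt.Uni
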